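import Pool.Agent.Results.MP_a6415b_co.NoLinearBound

/-!
# The on-line token colouring game: the value is of the order `χ(G) w` for suitable hosts

For every `k` there is a host graph `G` with at most `2 ^ (2 ^ k + k)` vertices and chromatic number
at most `k + 2` such that `f(w, G) ≥ (k + 4) / 2 * ⌊w / 2⌋` for all `w`. Every host satisfies
`f(w, G) ≤ χ(G) w`; so this bound cannot be improved by more than a factor `4` (even `w`), and the
ratio `f(w, G) / w` of hosts with `n` vertices can be of the order `log log n`.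

The host is the recursive one of the starting file, but the new vertices of a step are indexed by
the possible outcomes of the two preceding plays, not by all pairs of sets of vertices.
-/

set_option autoImplicit false

namespace Pool.Agent.Results.MP_a6415b_co.ChromaticOrder

open Classical
open Pool.Agent.Results.MP_a6415b_co.NoLinearBound

variable {V S : Type}

/-- the outcomes of a step: outcomes of the two plays, and whether the second one is reversed -/
abbrev Out (S : Type) : Type := S × S × Bool

/-- the colouring of the second play, possibly reversed -/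
def sec (col : S → V → Bool) (T : Out S) (v : V) : Bool := xor T.2.2 (col T.2.1 v)

/-- the colouring given by an outcome -/
def colN (col : S → V → Bool) (T : Out S) : V ⊕ V ⊕ Out S → Bool :=
  Sum.elim (col T.1) (Sum.elim (sec col T) fun _ => false)

/-- Two copies of `G` and, for every outcome, a new vertex. -/
def stepN (G : SimpleGraph V) (col : S → V → Bool) : SimpleGraph (V ⊕ V ⊕ Out S) where
  Adj x y := match x, y with
    | Sum.inl a, Sum.inl b => G.Adj a b
    | Sum.inr (Sum.inl a), Sum.inr (Sum.inl b) => G.Adj a b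
    | Sum.inr (Sum.inr T), Sum.inl a => col T.1 a = true
    | Sum.inl a, Sum.inr (Sum.inr T) => col T.1 a = true
    | Sum.inr (Sum.inr T), Sum.inr (Sum.inl a) => sec col T a = true
    | Sum.inr (Sum.inl a), Sum.inr (Sum.inr T) => sec col T a = true
    | _, _ => False
  symm := ⟨by
    rintro (a | a | S) (b | b | T) h <;> simp only at h ⊢ <;> first | exact h | exact h.symm⟩
  loopless := ⟨by
    rintro (a | a | S) h <;> simp only at h <;> exact G.loopless.irrefl _ h⟩

/-- the first copy -/
abbrev j1 (v : V) : V ⊕ V ⊕ Out S := Sum.inl v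
/-- the second copy -/
abbrev j2 (v : V) : V ⊕ V ⊕ Out S := Sum.inr (Sum.inl v)
/-- the new vertices -/
abbrev j3 (T : Out S) : V ⊕ V ⊕ Out S := Sum.inr (Sum.inr T)

lemma cnt_partN (l1 l2 : List V) (n : ℕ) (T : Out S) (x : V ⊕ V ⊕ Out S) :
    cnt (l1.map (j1 (S := S)) ++ l2.map j2 ++ List.replicate n (j3 T)) x =
      match x with
      | Sum.inl v => cnt l1 v
      | Sum.inr (Sum.inl v) => cnt l2 v
      | Sum.inr (Sum.inr T') => if T = T' then n else 0 := by
  have hi1 : Function.Injective (j1 (V := V) (S := S)) := fun a b h => by simpa [j1] using h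
  have hi2 : Function.Injective (j2 (V := V) (S := S)) := fun a b h => by simpa [j2] using h
  rw [cnt_append, cnt_append]
  rcases x with v | v | T'
  · rw [show (Sum.inl v : V ⊕ V ⊕ Out S) = j1 v from rfl,
      cnt_map hi1, cnt_eq_zero (l := l2.map j2),
      cnt_eq_zero (l := List.replicate n (j3 T))]
    · simp
    · simp [List.mem_replicate, j1, j3]
    · simp [j1, j2]
  · rw [show (Sum.inr (Sum.inl v) : V ⊕ V ⊕ Out S) = j2 v from rfl,
      cnt_map hi2, cnt_eq_zero (l := l1.map j1),
      cnt_eq_zero (l := List.replicate n (j3 T))]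
    · simp
    · simp [List.mem_replicate, j2, j3]
    · simp [j1, j2]
  · rw [cnt_eq_zero (l := l1.map j1),
      cnt_eq_zero (l := l2.map j2), cnt_replicate]
    · simp [j3]
    · simp [j2]
    · simp [j1]

lemma ok_unionN {G : SimpleGraph V} {col : S → V → Bool} {m : ℕ} {l1 l2 : List V}
    {c1 c2 : V → Bool} (h1 : Ok G m l1 c1) (h2 : Ok G m l2 c2) (n : ℕ) (hn : n ≤ m) (T : Out S)
    (hT : n ≠ 0 → (∀ v, col T.1 v = c1 v) ∧ ∀ v, sec col T v = c2 v) :
    Ok (stepN G col) m (l1.map j1 ++ l2.map j2 ++ List.replicate n (j3 T))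
      (Sum.elim c1 (Sum.elim c2 fun _ => false)) := by
  constructor
  · intro x
    rw [cnt_partN]
    rcases x with v | v | T'
    · exact h1.1 v
    · exact h2.1 v
    · simp only
      split_ifs <;> omega
  · intro x hx y hy hadj
    have key : ∀ x ∈ (l1.map j1 ++ l2.map j2 ++ List.replicate n (j3 T)),
        (∃ v ∈ l1, x = j1 v) ∨ (∃ v ∈ l2, x = j2 v) ∨ (n ≠ 0 ∧ x = j3 T) := by
      intro x hx
      simp only [List.mem_append, List.mem_map, List.mem_replicate] at hx
      rcases hx with (⟨v, hv, rfl⟩ | ⟨v, hv, rfl⟩) | ⟨h0, rfl⟩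
      · exact Or.inl ⟨v, hv, rfl⟩
      · exact Or.inr (Or.inl ⟨v, hv, rfl⟩)
      · exact Or.inr (Or.inr ⟨h0, rfl⟩)
    rcases key x hx with ⟨u, hu, rfl⟩ | ⟨u, hu, rfl⟩ | ⟨h0, rfl⟩ <;>
      rcases key y hy with ⟨v, hv, rfl⟩ | ⟨v, hv, rfl⟩ | ⟨h0', rfl⟩ <;>
      simp only [stepN, j1, j2, j3, Sum.elim_inl, Sum.elim_inr] at hadj ⊢
    · exact h1.2 u hu v hv hadj
    · have : c1 u = true := by rw [← (hT h0').1 u]; exact hadj
      simp [this]
    · exact h2.2 u hu v hv hadj
    · have : c2 u = true := by rw [← (hT h0').2 u]; exact hadj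
      simp [this]
    · have : c1 v = true := by rw [← (hT h0).1 v]; exact hadj
      simp [this]
    · have : c2 v = true := by rw [← (hT h0).2 v]; exact hadj
      simp [this]

lemma pproper_mapN1 {G : SimpleGraph V} {col : S → V → Bool} {A : List (V ⊕ V ⊕ Out S) → ℕ}
    {l : List V} (h : PProper (stepN G col) A (l.map j1)) :
    PProper G (fun l => A (l.map j1)) l := by
  intro p u q v hpq hql huv
  have := h (p.map j1) (j1 u) (q.map j1) (j1 v) (by simpa using hpq.map j1)
    (by simpa using hql.map j1) (huv.imp (fun h => by rw [h]) (fun h => h))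
  simpa using this

lemma pproper_mapN2 {G : SimpleGraph V} {col : S → V → Bool} {A : List (V ⊕ V ⊕ Out S) → ℕ}
    {l0 : List (V ⊕ V ⊕ Out S)} {l : List V}
    (h : PProper (stepN G col) A (l0 ++ l.map j2)) :
    PProper G (fun l => A (l0 ++ l.map j2)) l := by
  intro p u q v hpq hql huv
  have := h (l0 ++ p.map j2) (j2 u) (l0 ++ q.map j2) (j2 v)
    (by simpa using hpq.map j2)
    (by simpa using hql.map j2) (huv.imp (fun h => by rw [h]) (fun h => h))
  simpa using this

/-- the conclusion of the induction -/
def ConclN (G : SimpleGraph V) (col : S → V → Bool) (k m : ℕ) (A : List V → ℕ) : Prop :=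
  ∃ (l : List V) (s : S) (y : V), Ok G m l (col s) ∧ col s y = false ∧
    (∀ x, x ∈ l → col s x = true → G.Adj y x) ∧
    m ≤ (cols A l {y}).ncard ∧ (k + 2) * m ≤ 2 * (cols A l {x | col s x = true}).ncard

lemma cols_mapN1 {A : List (V ⊕ V ⊕ Out S) → ℕ} {l1 : List V} {c1 : V → Bool}
    {c : V ⊕ V ⊕ Out S → Bool} (hc : ∀ v, c1 v = true → c (j1 v) = true) :
    cols (fun l => A (l.map j1)) l1 {x | c1 x = true} ⊆
      cols A (l1.map j1) {x | c x = true} := by
  rintro a ⟨p, v, hp, hv, rfl⟩
  refine ⟨p.map j1, j1 v, by simpa using hp.map j1, hc v hv, ?_⟩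
  simp

lemma cols_mapN2 {A : List (V ⊕ V ⊕ Out S) → ℕ} {l0 : List (V ⊕ V ⊕ Out S)}
    {l2 : List V} {c2 : V → Bool}
    {c : V ⊕ V ⊕ Out S → Bool} (hc : ∀ v, c2 v = true → c (j2 v) = true) :
    cols (fun l => A (l0 ++ l.map j2)) l2 {x | c2 x = true} ⊆
      cols A (l0 ++ l2.map j2) {x | c x = true} := by
  rintro a ⟨p, v, hp, hv, rfl⟩
  refine ⟨p.map j2 |> (l0 ++ ·), j2 v, ?_, hc v hv, ?_⟩
  · simpa using hp.map j2
  · simp

lemma finishN {G : SimpleGraph V} {col : S → V → Bool} {k m : ℕ} {A : List (V ⊕ V ⊕ Out S) → ℕ}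
    (hA : Good (stepN G col) m A) {l1 l2 : List V} (T : Out S)
    (h1 : Ok G m l1 (col T.1)) (h2 : Ok G m l2 (sec col T))
    (hk : (k + 2) * m ≤ 2 * (cols (fun l => A (l.map j1)) l1 {x | col T.1 x = true} ∪
      cols (fun l => A (l1.map j1 ++ l.map j2)) l2 {x | sec col T x = true}).ncard) :
    ConclN (stepN G col) (colN col) k m A := by
  have hok := ok_unionN (col := col) h1 h2 m le_rfl T fun _ => ⟨fun _ => rfl, fun _ => rfl⟩
  refine ⟨_, T, j3 T, hok, rfl, ?_, ?_, ?_⟩
  · rintro (v | v | T') _ hv
    · exact hv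
    · exact hv
    · simp [colN] at hv
  · exact cols_replicate (hA _ _ hok)
  · refine hk.trans (Nat.mul_le_mul_left 2 (Set.ncard_le_ncard ?_ (cols_finite _ _ _)))
    apply Set.union_subset
    · refine (cols_mapN1 (c := colN col T) fun v hv => hv).trans ?_
      apply cols_mono _ le_rfl
      rw [List.append_assoc]
      exact List.prefix_append _ _
    · refine (cols_mapN2 (c := colN col T) fun v hv => hv).trans ?_
      apply cols_mono _ le_rfl
      exact List.prefix_append _ _

/-- A new colour suffices for the new vertices. -/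
lemma step_colorable {G : SimpleGraph V} {col : S → V → Bool} {q : ℕ} (h : G.Colorable q) :
    (stepN G col).Colorable (q + 1) := by
  obtain ⟨c⟩ := h
  refine ⟨SimpleGraph.Coloring.mk (Sum.elim (fun v => (c v).castSucc)
    (Sum.elim (fun v => (c v).castSucc) fun _ => Fin.last q)) ?_⟩
  rintro (u | u | T) (v | v | T') hadj <;>
    simp only [stepN, Sum.elim_inl, Sum.elim_inr] at hadj ⊢
  · exact fun h => c.valid hadj (Fin.castSucc_injective _ h)
  · exact (Fin.castSucc_lt_last _).ne
  · exact fun h => c.valid hadj (Fin.castSucc_injective _ h)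
  · exact (Fin.castSucc_lt_last _).ne
  · exact (Fin.castSucc_lt_last _).ne'
  · exact (Fin.castSucc_lt_last _).ne'

theorem claimN (k : ℕ) : ∃ (V S : Type) (_ : Fintype V) (_ : Fintype S) (G : SimpleGraph V)
    (col : S → V → Bool), Fintype.card S * 2 = 2 ^ (2 ^ k) ∧
    Fintype.card V ≤ 2 ^ (2 ^ k + k) ∧ G.Colorable (k + 2) ∧
    ∀ (m : ℕ) (A : List V → ℕ), Good G m A → ConclN G col k m A := by
  induction k with
  | zero =>
    refine ⟨Bool, Unit, inferInstance, inferInstance, ⊤, fun _ => id, by simp, by simp, ?_,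
      fun m A hA => ?_⟩
    · have := SimpleGraph.colorable_of_fintype (⊤ : SimpleGraph Bool)
      simpa using this
    have hok : Ok (⊤ : SimpleGraph Bool) m (List.replicate m true ++ List.replicate m false) id := by
      constructor
      · intro v
        rw [cnt_append, cnt_replicate, cnt_replicate]
        cases v <;> simp
      · intro u _ v _ h
        exact h
    refine ⟨_, (), false, hok, rfl, ?_, ?_, ?_⟩
    · intro x _ hx
      have hx' : x = true := hx
      subst hx'
      simp
    · exact cols_replicate (hA _ _ hok)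
    · have h1 : PProper (⊤ : SimpleGraph Bool) A ([] ++ List.replicate m true) :=
        hA _ _ (hok.sub (by simp))
      have h2 := cols_replicate h1
      have h3 := Set.ncard_le_ncard (cols_mono (A := A) (X := {true}) (X' := {x | id x = true})
        (l := [] ++ List.replicate m true)
        (l' := List.replicate m true ++ List.replicate m false) (by simp)
        (by intro x hx; exact hx)) (cols_finite _ _ _)
      change (0 + 2) * m ≤ 2 * (cols A (List.replicate m true ++ List.replicate m false)
        {x | id x = true}).ncard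
      omega
  | succ k ih =>
    obtain ⟨V, S, hV, hS, G, col, hcS, hcV, hcol, hG⟩ := ih
    have hcS' : Fintype.card (Out S) * 2 = 2 ^ (2 ^ (k + 1)) := by
      have e1 : Fintype.card (Out S) = Fintype.card S * (Fintype.card S * 2) := by
        simp [Out, Fintype.card_prod]
      have e2 : 2 ^ (2 ^ (k + 1)) = 2 ^ (2 ^ k) * 2 ^ (2 ^ k) := by
        rw [← pow_add, pow_succ]
        congr 1
        ring
      rw [e1, e2, ← hcS]
      ring
    refine ⟨V ⊕ V ⊕ Out S, Out S, inferInstance, inferInstance, stepN G col, colN col, hcS', ?_,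
      step_colorable hcol, fun m A hA => ?_⟩
    · rw [Fintype.card_sum, Fintype.card_sum]
      have e1 : 2 ^ (2 ^ (k + 1) + (k + 1)) = 2 ^ (2 ^ (k + 1)) * 2 ^ (k + 1) := pow_add _ _ _
      have e2 : 2 ^ (2 ^ k + k) = 2 ^ (2 ^ k) * 2 ^ k := pow_add _ _ _
      have e3 : 2 ^ (2 ^ (k + 1)) = 2 ^ (2 ^ k) * 2 ^ (2 ^ k) := by
        rw [← pow_add, pow_succ]
        congr 1
        ring
      have e4 : 2 ≤ 2 ^ (2 ^ k) := by
        calc 2 = 2 ^ 1 := by norm_num
          _ ≤ 2 ^ (2 ^ k) := Nat.pow_le_pow_right (by norm_num) Nat.one_le_two_pow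
      have e5 : 1 ≤ 2 ^ k := Nat.one_le_two_pow
      have e0 : 2 ^ (k + 1) = 2 ^ k * 2 := pow_succ 2 k
      rw [e1, e3, e0]
      rw [e2] at hcV
      rw [e3] at hcS'
      clear e1 e2 e3 e0 hcS
      generalize 2 ^ (2 ^ k) = a at *
      generalize 2 ^ k = b at *
      have f1 : 2 * (a * b) ≤ a * a * b := by
        calc 2 * (a * b) ≤ a * (a * b) := Nat.mul_le_mul_right _ e4
          _ = a * a * b := by ring
      have f2 : a * a ≤ a * a * b := Nat.le_mul_of_pos_right _ (by omega)
      have f3 : a * a * (b * 2) = 2 * (a * a * b) := by ring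
      omega
    have hne : Nonempty S := by
      rw [← Fintype.card_pos_iff]
      have : 0 < 2 ^ (2 ^ k) := by positivity
      omega
    obtain ⟨s0⟩ := hne
    have hA1 : Good G m (fun l => A (l.map j1)) := by
      intro l c hok
      have := hA _ _ (ok_unionN (col := col) hok (ok_nil (G := G) (c := c)) 0 (Nat.zero_le m)
        (s0, s0, false) fun h => absurd rfl h)
      apply pproper_mapN1
      simpa using this
    obtain ⟨l1, s1, y1, hok1, hy1, hadj1, hm1, hk1⟩ := hG m _ hA1
    have hA2 : Good G m (fun l => A (l1.map j1 ++ l.map j2)) := by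
      intro l c hok
      have := hA _ _ (ok_unionN (col := col) hok1 hok 0 (Nat.zero_le m)
        (s0, s0, false) fun h => absurd rfl h)
      apply pproper_mapN2
      simpa using this
    obtain ⟨l2, s2, y2, hok2, hy2, hadj2, hm2, hk2⟩ := hG m _ hA2
    have ef : ∀ v, sec col (s1, s2, false) v = col s2 v := fun v => by simp [sec]
    have et : ∀ v, sec col (s1, s2, true) v = !(col s2 v) := fun v => by simp [sec]
    set C1 := cols (fun l => A (l.map j1)) l1 {x | col s1 x = true} with hC1
    set C2 := cols (fun l => A (l1.map j1 ++ l.map j2)) l2 {x | col s2 x = true} with hC2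
    set D2 := cols (fun l => A (l1.map j1 ++ l.map j2)) l2 {y2} with hD2
    have fC1 : C1.Finite := cols_finite _ _ _
    have fC2 : C2.Finite := cols_finite _ _ _
    have fD2 : D2.Finite := cols_finite _ _ _
    rcases Nat.lt_or_ge (2 * (C1 ∪ C2).ncard) ((k + 1 + 2) * m) with hlt | hge
    · -- second case: use the opposite side of the second component
      refine finishN (l2 := l2) hA (s1, s2, true) hok1 ?_ ?_
      · have := hok2.flip
        have e : sec col (s1, s2, true) = fun v => !(col s2 v) := funext et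
        rw [e]
        exact this
      have hsub : C1 ∪ D2 ⊆ C1 ∪
          cols (fun l => A (l1.map j1 ++ l.map j2)) l2
            {x | sec col (s1, s2, true) x = true} := by
        apply Set.union_subset_union_right
        apply cols_mono (List.prefix_refl _)
        rintro x rfl
        show sec col (s1, s2, true) x = true
        rw [et, hy2]
        rfl
      refine le_trans ?_ (Nat.mul_le_mul_left 2 (Set.ncard_le_ncard hsub
        (fC1.union (cols_finite _ _ _))))
      have hdis : Disjoint D2 C2 := disj_cols (hA2 _ _ hok2) hy2 hadj2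
      have e1 : (C1 \ C2).ncard + C2.ncard = (C1 ∪ C2).ncard :=
        Set.ncard_sdiff_add_ncard C1 C2 fC1 fC2
      have e2 : (C1 ∪ D2).ncard + (C1 ∩ D2).ncard = C1.ncard + D2.ncard :=
        Set.ncard_union_add_ncard_inter C1 D2 fC1 fD2
      have e3 : (C1 ∩ D2).ncard ≤ (C1 \ C2).ncard := by
        apply Set.ncard_le_ncard _ (fC1.sdiff)
        rintro a ⟨ha1, ha2⟩
        exact ⟨ha1, fun ha3 => Set.disjoint_left.1 hdis ha2 ha3⟩
      have e4 : (k + 1 + 2) * m = (k + 2) * m + m := by ring
      omega
    · refine finishN (l2 := l2) hA (s1, s2, false) hok1 ?_ ?_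
      · have e : sec col (s1, s2, false) = col s2 := funext ef
        rw [e]
        exact hok2
      · have e : {x | sec col (s1, s2, false) x = true} = {x | col s2 x = true} := by
          ext x
          rw [Set.mem_setOf_eq, Set.mem_setOf_eq, ef]
        rw [e]
        exact hge

/-- The value of the game on the host graph of level `k`. -/
theorem lowerN (k : ℕ) : ∃ (V : Type) (_ : Fintype V) (G : SimpleGraph V),
    Fintype.card V ≤ 2 ^ (2 ^ k + k) ∧ G.Colorable (k + 2) ∧
    ∀ w : ℕ, (k + 4) * (w / 2) ≤ 2 * value G w := by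
  obtain ⟨V, S, hV, hS, G, col, -, hcV, hcol, hG⟩ := claimN k
  refine ⟨V, hV, G, hcV, hcol, fun w => ?_⟩
  obtain ⟨A, hA⟩ := value_wins G w
  have hgood : Good G (w / 2) A := good_of_wins (by omega) hA
  obtain ⟨l, s, y, hok, hy, hadj, hm, hk⟩ := hG (w / 2) A hgood
  have hleg : Legal G w l := fun l' hl' => (hok.sub hl').colorable (by omega)
  have h1 := cols_card_le hA hleg Set.univ
  have h2 : cols A l {y} ∪ cols A l {x | col s x = true} ⊆ cols A l Set.univ :=
    Set.union_subset (cols_mono (List.prefix_refl _) (Set.subset_univ _))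
      (cols_mono (List.prefix_refl _) (Set.subset_univ _))
  have h3 := Set.ncard_le_ncard h2 (cols_finite _ _ _)
  rw [Set.ncard_union_eq (disj_cols (hgood _ _ hok) hy hadj) (cols_finite _ _ _)
    (cols_finite _ _ _)] at h3
  have e : (k + 4) * (w / 2) = (k + 2) * (w / 2) + 2 * (w / 2) := by ring
  omega

/-! ### The upper bound -/

lemma card_tokens (v : V) (l : List V) :
    ((Finset.univ : Finset (Fin l.length)).filter (fun i => l[i] = v)).card = cnt l v := by
  induction l with
  | nil => simp [cnt]
  | cons a t ih =>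
    have h1 := Fin.card_filter_univ_succ (fun i : Fin (t.length + 1) => (a :: t)[i] = v)
    have h2 : cnt (a :: t) v = cnt t v + if a = v then 1 else 0 := by
      unfold cnt
      rw [List.countP_cons]
      simp
    rw [h2, ← ih]
    refine Eq.trans h1 ?_
    by_cases h : a = v
    · rw [if_pos (by exact h), if_pos h]
      rfl
    · rw [if_neg (by exact h), if_neg h]
      rfl

lemma legal_cnt {G : SimpleGraph V} {w : ℕ} {l : List V} (h : Legal G w l) (v : V) :
    cnt l v ≤ w := by
  obtain ⟨c⟩ := h l (List.prefix_refl l)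
  rw [← card_tokens]
  have h1 : Set.InjOn c ((Finset.univ : Finset (Fin l.length)).filter (fun i => l[i] = v)) := by
    intro i hi j hj hij
    by_contra hne
    simp only [Finset.coe_filter, Finset.mem_univ, true_and, Set.mem_setOf_eq] at hi hj
    exact c.valid (v := i) (w := j) ⟨hne, Or.inl (hi.trans hj.symm)⟩ hij
  have h2 := Finset.card_le_card_of_injOn c (t := Finset.univ) (fun _ _ => Finset.mem_univ _) h1
  simpa using h2

/-- Every host with a proper colouring with `q` colours has value at most `q w`. -/
theorem upper {G : SimpleGraph V} {q : ℕ} (hq : G.Colorable q) (w : ℕ) : value G w ≤ q * w := by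
  obtain ⟨c⟩ := hq
  let A : List V → ℕ := fun l => (l.getLast?.elim 0 fun v => (c v : ℕ) * w + cnt l.dropLast v)
  apply Nat.sInf_le
  refine ⟨A, fun l hl => ?_⟩
  have hcol : ∀ i : Fin l.length, tokenColour A l i = (c l[i] : ℕ) * w + cnt (l.take i) l[i] := by
    intro i
    have e : l.take (i + 1) = l.take i ++ [l[i]] := List.take_succ_eq_append_getElem i.2
    simp only [tokenColour, A]
    rw [e, List.getLast?_concat, List.dropLast_concat]
    rfl
  have hcnt : ∀ i : Fin l.length, cnt (l.take i) l[i] < w := by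
    intro i
    have h1 : cnt (l.take (i + 1)) l[i] ≤ w :=
      (cnt_le_of_prefix (List.take_prefix _ l) _).trans (legal_cnt hl _)
    rw [List.take_succ_eq_append_getElem i.2, cnt_append] at h1
    have h2 : cnt ([l[(i : ℕ)]] : List V) l[i] = 1 := by simp [cnt_single]
    rw [h2] at h1
    omega
  have hlt : ∀ i j : Fin l.length, i < j → l[i] = l[j] →
      cnt (l.take i) l[i] < cnt (l.take j) l[j] := by
    intro i j hij he
    have h1 : l.take (i + 1) <+: l.take j := by
      apply List.take_prefix_take_left
      exact hij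
    have h2 := cnt_le_of_prefix h1 l[j]
    rw [List.take_succ_eq_append_getElem i.2, cnt_append] at h2
    have h3 : cnt ([l[(i : ℕ)]] : List V) l[j] = 1 := by
      rw [← he]; simp [cnt_single]
    rw [h3] at h2
    rw [he]
    omega
  constructor
  · intro i j hij heq
    rw [hcol, hcol] at heq
    obtain ⟨hne, hadj⟩ := hij
    have h1 := hcnt i
    have h2 := hcnt j
    rcases hadj with he | hadj
    · rcases lt_or_gt_of_ne hne with hlt' | hlt'
      · have := hlt i j hlt' he
        rw [he] at heq this
        omega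
      · have := hlt j i hlt' he.symm
        rw [he] at heq this
        omega
    · have h3 := c.valid hadj
      apply h3
      apply Fin.ext
      have h4 : ((c l[i] : ℕ) * w + cnt (l.take i) l[i]) / w = c l[i] := by
        rw [mul_comm, Nat.mul_add_div (by omega), Nat.div_eq_of_lt h1, add_zero]
      have h5 : ((c l[j] : ℕ) * w + cnt (l.take j) l[j]) / w = c l[j] := by
        rw [mul_comm, Nat.mul_add_div (by omega), Nat.div_eq_of_lt h2, add_zero]
      rw [← h4, ← h5, heq]
  · calc (Finset.univ.image (tokenColour A l)).card ≤ (Finset.range (q * w)).card := by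
          apply Finset.card_le_card
          intro a ha
          obtain ⟨i, -, rfl⟩ := Finset.mem_image.1 ha
          rw [Finset.mem_range, hcol]
          have h1 := hcnt i
          have h2 := (c l[i]).isLt
          calc (c l[i] : ℕ) * w + cnt (l.take i) l[i] < (c l[i] : ℕ) * w + w := by omega
            _ = ((c l[i] : ℕ) + 1) * w := by ring
            _ ≤ q * w := Nat.mul_le_mul_right _ h2
      _ = q * w := Finset.card_range _

/-- **The value of the on-line token colouring game in terms of the chromatic number of the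
host.** Every finite host with a proper `q`-colouring has `f(w, G) ≤ q w` for all `w`; and for every
`q ≥ 2` there is a host with a proper `q`-colouring and at most `2 ^ (2 ^ (q - 2) + (q - 2))`
vertices such that `f(w, G) ≥ (q + 2) / 2 * ⌊w / 2⌋` for all `w`. -/
theorem result :
    (∀ (V : Type) (_ : Fintype V) (G : SimpleGraph V) (q : ℕ), G.Colorable q →
      ∀ w : ℕ, value G w ≤ q * w) ∧
    ∀ q : ℕ, 2 ≤ q → ∃ (V : Type) (_ : Fintype V) (G : SimpleGraph V), G.Colorable q ∧
      Fintype.card V ≤ 2 ^ (2 ^ (q - 2) + (q - 2)) ∧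
      ∀ w : ℕ, (q + 2) * (w / 2) ≤ 2 * value G w := by
  refine ⟨fun V _ G q hq w => upper hq w, fun q hq => ?_⟩
  obtain ⟨k, rfl⟩ : ∃ k, q = k + 2 := ⟨q - 2, by omega⟩
  obtain ⟨V, hV, G, h1, h2, h3⟩ := lowerN k
  exact ⟨V, hV, G, h2, h1, h3⟩

end Pool.Agent.Results.MP_a6415b_co.ChromaticOrder
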